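import Pool.Agent.PSV.StmtsG

/-! Squad PSV (MP_c1bb77_ag), module BGP (helper44). -/

set_option autoImplicit false

namespace Pool.Agent.PSV.H44

open Matrix Polynomial Pool.Agent.MT100 Pool.Agent.MT100G Pool.Agent.MT100D Pool.Agent.Helper39_MT
  Pool.Agent.MT100D.H78 Pool.Agent.MT100.H76

theorem gtc_mono {B B' : ℕ} {f : PowerSeries ℚ} (hB : B ≤ B') (h : GTC B f) : GTC B' f := by
  intro k
  obtain ⟨h1, D, hD0, hD1, hD2⟩ := h k
  have hBB : (B : ℚ) ≤ (B' : ℚ) := by exact_mod_cast hB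
  exact ⟨h1.trans (pow_le_pow_left₀ (by positivity) hBB _), D, hD0,
    hD1.trans (Nat.pow_le_pow_left hB _), hD2⟩

theorem rb_sub {B : ℕ} (hB : 2 ≤ B) {r s : ℚ} (hr : RB B r) (hs : RB B s) : RB (B ^ 2) (r - s) := by
  constructor
  · have h1 : (r - s).den ∣ r.den * s.den := Rat.sub_den_dvd r s
    have h2 := Nat.le_of_dvd (Nat.mul_pos r.pos s.pos) h1
    calc (r - s).den ≤ r.den * s.den := h2
      _ ≤ B * B := Nat.mul_le_mul hr.1 hs.1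
      _ = B ^ 2 := by ring
  · have h2 : (2 : ℚ) ≤ B := by exact_mod_cast hB
    have h3 := abs_sub r s
    push_cast
    calc |r - s| ≤ |r| + |s| := h3
      _ ≤ B + B := add_le_add hr.2 hs.2
      _ ≤ (B : ℚ) ^ 2 := by nlinarith

theorem bgp (hb : BnpStmt) (hg : GmpStmt) : BgpStmt := by
  obtain ⟨a1, h1⟩ := hb
  intro n
  obtain ⟨a2, h2⟩ := hg n
  refine ⟨2 * (a1 + 1) * a2, ?_⟩
  intro d _ _ B δ hB hd hδ
  have hB2 : 2 ≤ B ^ 2 := by nlinarith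
  have hC : 2 ≤ (B ^ 2) ^ (a1 + 1) := by
    calc 2 ≤ B ^ 2 := hB2
      _ = (B ^ 2) ^ 1 := (pow_one _).symm
      _ ≤ (B ^ 2) ^ (a1 + 1) := Nat.pow_le_pow_right (by omega) (by omega)
  have hX : ∀ i j, GTC ((B ^ 2) ^ (a1 + 1))
      ((Matrix.of fun i j => Pool.Agent.MT100.H34.bn 1 (δ j - δ i)) i j) := by
    intro i j
    rw [Matrix.of_apply]
    exact gtc_mono (Nat.pow_le_pow_right (by omega) (by omega))
      (h1 (B ^ 2) 1 hB2 (by omega) _ (rb_sub hB (hδ j) (hδ i)))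
  have h3 := h2 d ((B ^ 2) ^ (a1 + 1)) _ hC hd hX
  intro T
  obtain ⟨_, D, hD0, hD1, hD2⟩ := h3 T
  have e : ((B ^ 2) ^ (a1 + 1)) ^ a2 = B ^ (2 * (a1 + 1) * a2) := by
    rw [← pow_mul, ← pow_mul]
    ring_nf
  rw [e] at hD1
  refine ⟨D, hD0, hD1, fun b hb n E F hF i j => ?_⟩
  rw [Bi_diag]
  intro k hk
  obtain ⟨z, hz⟩ := hD2 i j b hb
  obtain ⟨y, hy⟩ := hF i j k hk
  rw [Matrix.of_apply, Pool.Agent.MT100.H34.coeff_bn] at hz
  rw [PowerSeries.coeff_smul, smul_eq_mul]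
  refine ⟨(-1) ^ b * z * y, ?_⟩
  push_cast at hz ⊢
  rw [← hz, ← hy]
  have h1 : ((-1 : ℚ) ^ b) * (-1) ^ b = 1 := by rw [← mul_pow]; norm_num
  linear_combination (-(D : ℚ) * E * Ring.choose (δ j - δ i) b * PowerSeries.coeff k (F i j)) * h1

end Pool.Agent.PSV.H44
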