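import Pool.Agent.PSV.StmtsS
import Pool.Agent.Helper46_MTD.Fsa
import Pool.Agent.Helper64_MTD.Vag
import Pool.Agent.Helper20_MTD.Trg

/-! Squad PSV (MP_c1bb77_ag), module FSE (helper44): edit of `Helper46_MTD/Fsa.lean`. -/

set_option autoImplicit false

namespace Pool.Agent.PSV.H44

open Matrix Polynomial NumberField Pool.Agent.MT100 Pool.Agent.MT100G Pool.Agent.MT100A
  Pool.Agent.MT100D Pool.Agent.Helper78_MT Pool.Agent.Helper65MT100

theorem fse (hbae : BaeStmt) (hpse : PseStmt) : FseStmt := by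
  intro d _ _ n B F hF ι _ _ κ hκ k
  obtain ⟨hB, hb⟩ := hbae d n B F hF
  obtain ⟨m, M, nn, hm, hn⟩ := MT100D.H46.ex_den F.δ
  obtain ⟨R0, hR⟩ := hpse d F.q F.B _ F.Y hB (((n + 1) * B : ℕ) : ℝ) (Nat.cast_nonneg _) hb
    (3 * (n + 1) * B + 3) (by push_cast; linarith) ι κ hκ m hm
  refine ⟨max R0 0, fun p hp w hw g hg => ?_⟩
  have hw0 : R0 < w := lt_of_le_of_lt (le_max_left _ _) hw
  have hw2 : 0 < w := lt_of_le_of_lt (le_max_right _ _) hw
  have hT : ∀ᶠ w : ℝ in Filter.atTop, ∀ i : ι,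
      F.Y ((w : ℂ) - κ i) * F.R w = F.tv (κ i) w := by
    rw [Filter.eventually_all]
    intro i
    exact MT100D.H64.vagD d F (κ i)
  obtain ⟨D, hD⟩ : ∃ D : ℕ, ∀ β α, (p β α).natDegree ≤ D :=
    ⟨Finset.univ.sup fun x : (ι × Fin k → d) × (ι × Fin k → d) => (p x.1 x.2).natDegree,
      fun β α => Finset.le_sup (f := fun x : (ι × Fin k → d) × (ι × Fin k → d) =>
        (p x.1 x.2).natDegree) (Finset.mem_univ (β, α))⟩
  have hΦ : ∀ᶠ w : ℝ in Filter.atTop, MvPolynomial.eval (vrD m (w : ℂ) (Complex.log w)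
      fun i => F.Y ((w : ℂ) - κ i)) (MT100D.H46.Ph F.N nn k D p) = 0 := by
    filter_upwards [hT, MT100D.H46.rel_ev MT100.H47.eva MT100D.H20.trgD F κ k p hp,
      Filter.eventually_gt_atTop 0] with x hx1 hx2 hx0
    rw [MT100D.H46.ph_eval F.N F.δ m M nn hm hn k D p hD _ _ (by exact_mod_cast hx0.ne')]
    have h6 : ∀ s : ι × Fin k, F.Y ((x : ℂ) - κ s.1) *
        (ed F.δ (Complex.log x) * eN F.N (Complex.log x)) = F.tv (κ s.1) x := fun s => hx1 s.1
    simp only [h6]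
    rw [hx2, mul_zero]
  have h6 := hR (MT100D.H46.Ph F.N nn k D p) hΦ w hw0 g hg
  have hwc : (w : ℂ) ≠ 0 := by exact_mod_cast hw2.ne'
  rw [MT100D.H46.ph_eval F.N F.δ m M nn hm hn k D p hD _ _ hwc] at h6
  exact (mul_eq_zero.mp h6).resolve_left
    (mul_ne_zero (pow_ne_zero D hwc) (pow_ne_zero _ (pow_ne_zero _ (Complex.exp_ne_zero _))))

end Pool.Agent.PSV.H44
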