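import Pool.Agent.PSV.StmtsS
import Pool.Agent.PSV.StmtsG
import Pool.Agent.Helper2_MTD.Gfm

/-! Squad PSV (MP_c1bb77_ag), module GAE (helper44): the size of the constant gauge
transformation. -/

set_option autoImplicit false
set_option linter.unusedSectionVars false

namespace Pool.Agent.PSV.H44G

open Matrix Polynomial Pool.Agent.MT100 Pool.Agent.MT100G Pool.Agent.MT100A Pool.Agent.MT100D
  Pool.Agent.Helper78_MT
open Pool.Agent.MT100D.H2 (cm cm_apply zpH_C)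
open Pool.Agent.MT100G.H43 (zpH zpH_apply)

/-! ### Monotonicity -/

theorem gtc_mono {B B' : ℕ} {f : PowerSeries ℚ} (hB : B ≤ B') (h : GTC B f) : GTC B' f := by
  intro k
  obtain ⟨h1, D, hD0, hD1, hD2⟩ := h k
  have hBB : (B : ℚ) ≤ (B' : ℚ) := by exact_mod_cast hB
  exact ⟨h1.trans (pow_le_pow_left₀ (by positivity) hBB _), D, hD0,
    hD1.trans (Nat.pow_le_pow_left hB _), hD2⟩

/-! ### The constant coefficients -/

theorem rb_cc {B : ℕ} {f : PowerSeries ℚ} (h : GTC B f) : RB B (PowerSeries.constantCoeff f) := by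
  obtain ⟨h1, D, hD0, hD1, hD2⟩ := h 0
  rw [zero_add, pow_one] at h1 hD1
  rw [PowerSeries.coeff_zero_eq_constantCoeff_apply] at h1
  refine ⟨?_, h1⟩
  obtain ⟨z, hz⟩ := hD2 0 le_rfl
  rw [PowerSeries.coeff_zero_eq_constantCoeff_apply] at hz
  have hD : (D : ℚ) ≠ 0 := by exact_mod_cast hD0.ne'
  have h2 : PowerSeries.constantCoeff f = (z : ℚ) / ((D : ℤ) : ℚ) := by
    rw [← hz, Int.cast_natCast]
    field_simp
  have h3 : (((PowerSeries.constantCoeff f).den : ℕ) : ℤ) ∣ (D : ℤ) := by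
    rw [h2, ← Rat.divInt_eq_div]
    exact Rat.den_dvd z (D : ℤ)
  exact (Nat.le_of_dvd hD0 (Int.natCast_dvd_natCast.1 h3)).trans hD1

/-- common denominator with a bound -/
theorem cdenB {ι : Type*} [Fintype ι] {B n : ℕ} (hB : 1 ≤ B) (hn : Fintype.card ι ≤ n) (x : ι → ℚ)
    (hx : ∀ i, RB B (x i)) :
    ∃ m : ℕ, 0 < m ∧ m ≤ B ^ n ∧ ∃ z : ι → ℤ, ∀ i, (m : ℚ) * x i = z i ∧
      |z i| ≤ ((B ^ (n + 1) : ℕ) : ℤ) := by
  classical
  have hm : ∏ i, (x i).den ≤ B ^ n := by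
    calc ∏ i, (x i).den ≤ ∏ _i : ι, B := Finset.prod_le_prod' fun i _ => (hx i).1
      _ = B ^ Fintype.card ι := by rw [Finset.prod_const, Finset.card_univ]
      _ ≤ B ^ n := Nat.pow_le_pow_right hB hn
  refine ⟨∏ i, (x i).den, Finset.prod_pos fun i _ => (x i).pos, hm, ?_⟩
  have h : ∀ i, ∃ z : ℤ, (((∏ i, (x i).den : ℕ)) : ℚ) * x i = z := by
    intro i
    obtain ⟨c, hc⟩ := Finset.dvd_prod_of_mem (fun i => (x i).den) (Finset.mem_univ i)
    refine ⟨(c : ℤ) * (x i).num, ?_⟩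
    rw [hc]
    have h1 : ((x i).den : ℚ) ≠ 0 := by exact_mod_cast (x i).den_nz
    have h2 : x i = (x i).num / (x i).den := (Rat.num_div_den _).symm
    rw [Int.cast_mul, Int.cast_natCast, Nat.cast_mul]
    have h3 : ((x i).den : ℚ) * x i = (x i).num := by
      nth_rewrite 2 [h2]
      field_simp
    calc ((x i).den : ℚ) * (c : ℚ) * x i = c * (((x i).den : ℚ) * x i) := by ring
      _ = c * (x i).num := by rw [h3]
  choose z hz using h
  refine ⟨z, fun i => ⟨hz i, ?_⟩⟩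
  have h4 : (|z i| : ℚ) ≤ ((B ^ (n + 1) : ℕ) : ℚ) := by
    rw [← hz i, abs_mul]
    have h5 : (((∏ i, (x i).den : ℕ)) : ℚ) ≤ ((B ^ n : ℕ) : ℚ) := by exact_mod_cast hm
    have h6 : |(((∏ i, (x i).den : ℕ)) : ℚ)| = (((∏ i, (x i).den : ℕ)) : ℚ) :=
      abs_of_nonneg (Nat.cast_nonneg _)
    rw [h6, pow_succ, Nat.cast_mul]
    exact mul_le_mul h5 (hx i).2 (abs_nonneg _) (Nat.cast_nonneg _)
  have h7 : ((|z i| : ℤ) : ℚ) ≤ ((((B ^ (n + 1) : ℕ)) : ℤ) : ℚ) := by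
    rw [Int.cast_abs, Int.cast_natCast]
    exact h4
  exact_mod_cast h7

variable {d : Type} [Fintype d] [DecidableEq d]

/-- the integral matrix of the transformed system has polynomially bounded size -/
theorem coeff_mul3 (Z1 Z2 : Matrix d d ℤ) (Bm : Matrix d d ℤ[X]) (i j : d) (t : ℕ) :
    ((Z1.map (fun x => C x) * Bm * Z2.map (fun x => C x)) i j).coeff t =
      ∑ k, ∑ l, Z1 i l * (Bm l k).coeff t * Z2 k j := by
  rw [Matrix.mul_apply, finsetSum_coeff]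
  refine Finset.sum_congr rfl fun k _ => ?_
  rw [Matrix.map_apply, coeff_mul_C, Matrix.mul_apply, finsetSum_coeff, Finset.sum_mul]
  refine Finset.sum_congr rfl fun l _ => ?_
  rw [Matrix.map_apply, coeff_C_mul]

theorem ode_gauge {H K : Matrix d d (PowerSeries ℚ)} {N : Matrix d d ℤ} {δ : d → ℚ} {q : ℤ[X]}
    {B : Matrix d d ℤ[X]} (hS : GSysW H K N δ q B) (H0 K0 : Matrix d d ℚ) (e1 : H0 * K0 = 1)
    (m1 m2 : ℕ) (Z1 Z2 : Matrix d d ℤ) (hZ1 : ∀ i j, (m1 : ℚ) * K0 i j = Z1 i j)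
    (hZ2 : ∀ i j, (m2 : ℚ) * H0 i j = Z2 i j) :
    (zp (C ((m1 * m2 : ℕ) : ℤ) * q) * PowerSeries.X) • (cm K0 * H).map dv =
      (Z1.map (fun x => C x) * B * Z2.map (fun x => C x)).map zp * (cm K0 * H) -
        zp (C ((m1 * m2 : ℕ) : ℤ) * q) •
          ((cm K0 * H) * (AA N δ).map (fun x => PowerSeries.C x)) := by
  have e3 : cm H0 * cm K0 = 1 := by rw [← map_mul, e1, map_one]
  set Bz : Matrix d d (PowerSeries ℚ) := B.map zp with hBz
  set Az : Matrix d d (PowerSeries ℚ) := (AA N δ).map (fun x => PowerSeries.C x) with hAz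
  set c1 : PowerSeries ℚ := PowerSeries.C (m1 : ℚ) with hc1
  set c2 : PowerSeries ℚ := PowerSeries.C (m2 : ℚ) with hc2
  have hq : zp (C ((m1 * m2 : ℕ) : ℤ) * q) = (c1 * c2) * zp q := by
    rw [← zpH_apply, map_mul, zpH_C, zpH_apply, hc1, hc2, ← map_mul]
    norm_num
  have hB : (Z1.map (fun x => C x) * B * Z2.map (fun x => C x)).map zp =
      (c1 * c2) • (cm K0 * Bz * cm H0) := by
    have h1 : (Z1.map (fun x => C x) : Matrix d d ℤ[X]).map zpH = c1 • cm K0 := by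
      ext i j : 2
      rw [Matrix.map_apply, Matrix.map_apply, zpH_C, Matrix.smul_apply, cm_apply, Matrix.map_apply,
        smul_eq_mul, hc1, ← map_mul, hZ1]
    have h2 : (Z2.map (fun x => C x) : Matrix d d ℤ[X]).map zpH = c2 • cm H0 := by
      ext i j : 2
      rw [Matrix.map_apply, Matrix.map_apply, zpH_C, Matrix.smul_apply, cm_apply, Matrix.map_apply,
        smul_eq_mul, hc2, ← map_mul, hZ2]
    have h3 : (Z1.map (fun x => C x) * B * Z2.map (fun x => C x)).map zp =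
        zpH.mapMatrix (Z1.map (fun x => C x) * B * Z2.map (fun x => C x)) := rfl
    rw [h3, map_mul, map_mul, RingHom.mapMatrix_apply, RingHom.mapMatrix_apply,
      RingHom.mapMatrix_apply, h1, h2]
    have h4 : B.map zpH = Bz := rfl
    rw [h4, Matrix.smul_mul, Matrix.smul_mul, Matrix.mul_smul, smul_smul]
  have h5 : (zp q * PowerSeries.X) • (cm K0 * H.map dv) =
      cm K0 * Bz * cm H0 * (cm K0 * H) - zp q • (cm K0 * H * Az) := by
    rw [← Matrix.mul_smul, hS.ode, ← hBz, ← hAz, Matrix.mul_sub, Matrix.mul_smul,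
      Matrix.mul_assoc (cm K0) H Az]
    congr 1
    calc cm K0 * (Bz * H) = cm K0 * Bz * H := (Matrix.mul_assoc _ _ _).symm
      _ = cm K0 * Bz * (cm H0 * cm K0) * H := by rw [e3, mul_one]
      _ = _ := by simp only [Matrix.mul_assoc]
  rw [hq, hB, MT100D.H2.dv_cm_mul, mul_assoc (c1 * c2),
    mul_smul (c1 * c2) (zp q * PowerSeries.X), h5, smul_sub, Matrix.smul_mul,
    mul_smul (c1 * c2) (zp q)]

theorem gae (hgtp : GtpStmt) : GaeStmt := by
  obtain ⟨g1, g2, -, a4, g4⟩ := hgtp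
  intro n
  obtain ⟨a2, g2⟩ := g2 n
  obtain ⟨a, ha⟩ : ∃ a : ℕ, a = 4 * (a4 + 1) * a2 + (2 * n ^ 2 + 2 * n + 3) := ⟨_, rfl⟩
  refine ⟨a, ?_⟩
  intro d _ _ H K N δ q Bm B hZ
  have hS := hZ.sys
  have hB2 := hZ.two
  have hB1 : 1 ≤ B := by omega
  set H0 : Matrix d d ℚ := H.map (fun f => PowerSeries.constantCoeff f) with hH0
  set K0 : Matrix d d ℚ := K.map (fun f => PowerSeries.constantCoeff f) with hK0
  have e1 : H0 * K0 = 1 := by
    have h := congrArg (PowerSeries.constantCoeff (R := ℚ)).mapMatrix hS.inv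
    rw [map_mul, map_one] at h
    exact h
  have e2 : K0 * H0 = 1 := mul_eq_one_comm.mp e1
  have e4 : cm K0 * cm H0 = 1 := by rw [← map_mul, e2, map_one]
  have hcd : Fintype.card (d × d) ≤ n ^ 2 := by
    rw [Fintype.card_prod, sq]
    exact Nat.mul_le_mul hZ.card hZ.card
  have rH : ∀ i j, RB B (H0 i j) := fun i j => rb_cc (hZ.gH i j)
  have rK : ∀ i j, RB B (K0 i j) := fun i j => rb_cc (hZ.gK i j)
  obtain ⟨m1, hm1, hm1', z1, hz1⟩ := cdenB hB1 hcd (fun p : d × d => K0 p.1 p.2)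
    fun p => rK p.1 p.2
  obtain ⟨m2, hm2, hm2', z2, hz2⟩ := cdenB hB1 hcd (fun p : d × d => H0 p.1 p.2)
    fun p => rH p.1 p.2
  obtain ⟨Z1, hZ1⟩ : ∃ Z1 : Matrix d d ℤ, Z1 = Matrix.of fun i j => z1 (i, j) := ⟨_, rfl⟩
  obtain ⟨Z2, hZ2⟩ : ∃ Z2 : Matrix d d ℤ, Z2 = Matrix.of fun i j => z2 (i, j) := ⟨_, rfl⟩
  have hZ1' : ∀ i j, (m1 : ℚ) * K0 i j = Z1 i j := fun i j => by
    rw [hZ1, Matrix.of_apply]
    exact (hz1 (i, j)).1
  have hZ2' : ∀ i j, (m2 : ℚ) * H0 i j = Z2 i j := fun i j => by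
    rw [hZ2, Matrix.of_apply]
    exact (hz2 (i, j)).1
  have bZ1 : ∀ i j, |Z1 i j| ≤ ((B ^ (n ^ 2 + 1) : ℕ) : ℤ) := fun i j => by
    rw [hZ1, Matrix.of_apply]
    exact (hz1 (i, j)).2
  have bZ2 : ∀ i j, |Z2 i j| ≤ ((B ^ (n ^ 2 + 1) : ℕ) : ℤ) := fun i j => by
    rw [hZ2, Matrix.of_apply]
    exact (hz2 (i, j)).2
  have hm0 : ((m1 * m2 : ℕ) : ℤ) ≠ 0 := by exact_mod_cast (Nat.mul_pos hm1 hm2).ne'
  -- powers
  have hBa : ∀ t : ℕ, t ≤ a → B ^ t ≤ B ^ a := fun t ht => Nat.pow_le_pow_right hB1 ht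
  have hB1a : B ≤ B ^ a := by
    calc B = B ^ 1 := (pow_one _).symm
      _ ≤ B ^ a := hBa 1 (by omega)
  have hnB : n ≤ B ^ n := by
    calc n ≤ 2 ^ n := Nat.lt_two_pow_self.le
      _ ≤ B ^ n := Nat.pow_le_pow_left hB2 n
  -- G-type
  have hBe : B ≤ B ^ (a4 + 1) := by
    calc B = B ^ 1 := (pow_one _).symm
      _ ≤ B ^ (a4 + 1) := Nat.pow_le_pow_right hB1 (by omega)
  have h2e : 2 ≤ B ^ (a4 + 1) := hB2.trans hBe
  have h2e4 : 2 ≤ (B ^ (a4 + 1)) ^ 4 := by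
    calc 2 ≤ B ^ (a4 + 1) := h2e
      _ = (B ^ (a4 + 1)) ^ 1 := (pow_one _).symm
      _ ≤ (B ^ (a4 + 1)) ^ 4 := Nat.pow_le_pow_right (by omega) (by norm_num)
  have gC : ∀ r : ℚ, RB B r → GTC (B ^ (a4 + 1)) (PowerSeries.C r) := fun r hr =>
    gtc_mono (Nat.pow_le_pow_right hB1 (by omega)) (g4 B r hB2 hr)
  have hexp : ((B ^ (a4 + 1)) ^ 4) ^ a2 ≤ B ^ a := by
    rw [← pow_mul, ← pow_mul]
    refine hBa _ ?_
    calc _ = 4 * (a4 + 1) * a2 := by ring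
      _ ≤ a := by rw [ha]; exact Nat.le_add_right _ _
  have gS : ∀ f g : d → PowerSeries ℚ, (∀ k, GTC (B ^ (a4 + 1)) (f k)) →
      (∀ k, GTC (B ^ (a4 + 1)) (g k)) → GTC (B ^ a) (∑ k, f k * g k) := by
    intro f g hf hg
    refine gtc_mono hexp (g2 d _ _ h2e4 hZ.card fun k => ?_).1
    exact (g1 _ _ _ h2e (hf k) (hg k)).1
  have gH : ∀ i j, GTC (B ^ a) ((cm K0 * H) i j) := by
    intro i j
    rw [Matrix.mul_apply]
    exact gS (fun k => cm K0 i k) (fun k => H k j) (fun k => gC _ (rK i k))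
      fun k => gtc_mono hBe (hZ.gH k j)
  have gK : ∀ i j, GTC (B ^ a) ((K * cm H0) i j) := by
    intro i j
    rw [Matrix.mul_apply]
    exact gS (fun k => K i k) (fun k => cm H0 k j) (fun k => gtc_mono hBe (hZ.gK i k))
      fun k => gC _ (rH k j)
  have gtype_cm : ∀ (M : Matrix d d ℚ) (i j : d), GType (cm M i j) := fun M i j => by
    rw [cm_apply, Matrix.map_apply]
    exact Helper5_MT100.gconst _
  refine ⟨H0, K0, C ((m1 * m2 : ℕ) : ℤ) * q, Z1.map (fun x => C x) * Bm * Z2.map (fun x => C x),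
    e1, e2, ⟨⟨?_, hS.nil, hS.com, mul_ne_zero (by rwa [Ne, C_eq_zero]) hS.q0, ?_, ?_, ?_⟩,
      hB2.trans hB1a, hZ.card, ⟨?_, ?_⟩, ?_, ?_, ?_, gH, gK⟩, ?_⟩
  · calc cm K0 * H * (K * cm H0) = cm K0 * (H * K) * cm H0 := by
          rw [Matrix.mul_assoc, Matrix.mul_assoc, Matrix.mul_assoc]
      _ = 1 := by rw [hS.inv, mul_one, e4]
  · exact ode_gauge hS H0 K0 e1 m1 m2 Z1 Z2 hZ1' hZ2'
  · exact MT100.H27.gtype_mmul (gtype_cm K0) hS.gH
  · exact MT100.H27.gtype_mmul hS.gK (gtype_cm H0)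
  · exact (natDegree_C_mul_le _ _).trans hZ.hq.1
  · intro t
    rw [coeff_C_mul, abs_mul, Int.natCast_mul, abs_mul, Nat.abs_cast, Nat.abs_cast]
    have h1 : (m1 : ℤ) ≤ ((B ^ (n ^ 2) : ℕ) : ℤ) := by exact_mod_cast hm1'
    have h2 : (m2 : ℤ) ≤ ((B ^ (n ^ 2) : ℕ) : ℤ) := by exact_mod_cast hm2'
    calc (m1 : ℤ) * m2 * |q.coeff t| ≤
        ((B ^ (n ^ 2) : ℕ) : ℤ) * ((B ^ (n ^ 2) : ℕ) : ℤ) * (B : ℤ) := by
          refine mul_le_mul (mul_le_mul h1 h2 (by positivity) (by positivity)) (hZ.hq.2 t)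
            (abs_nonneg _) (by positivity)
      _ = ((B ^ (2 * n ^ 2 + 1) : ℕ) : ℤ) := by push_cast; ring
      _ ≤ ((B ^ a : ℕ) : ℤ) := by
          exact_mod_cast hBa (2 * n ^ 2 + 1) (by omega)
  · intro i j
    constructor
    · rw [Matrix.mul_apply]
      refine natDegree_sum_le_of_forall_le _ _ fun k _ => ?_
      rw [Matrix.map_apply]
      refine (natDegree_mul_C_le _ _).trans ?_
      rw [Matrix.mul_apply]
      refine natDegree_sum_le_of_forall_le _ _ fun l _ => ?_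
      rw [Matrix.map_apply]
      exact (natDegree_C_mul_le _ _).trans (hZ.hM l k).1
    · intro t
      rw [coeff_mul3]
      have h1 : ∀ k l : d, |Z1 i l * (Bm l k).coeff t * Z2 k j| ≤
          ((B ^ (2 * n ^ 2 + 3) : ℕ) : ℤ) := by
        intro k l
        rw [abs_mul, abs_mul]
        calc |Z1 i l| * |(Bm l k).coeff t| * |Z2 k j| ≤
            ((B ^ (n ^ 2 + 1) : ℕ) : ℤ) * (B : ℤ) * ((B ^ (n ^ 2 + 1) : ℕ) : ℤ) := by
              refine mul_le_mul (mul_le_mul (bZ1 i l) ((hZ.hM l k).2 t) (abs_nonneg _)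
                (by positivity)) (bZ2 k j) (abs_nonneg _) (by positivity)
          _ = ((B ^ (2 * n ^ 2 + 3) : ℕ) : ℤ) := by push_cast; ring
      have h2 : |∑ k, ∑ l, Z1 i l * (Bm l k).coeff t * Z2 k j| ≤
          ∑ _k : d, ∑ _l : d, ((B ^ (2 * n ^ 2 + 3) : ℕ) : ℤ) :=
        (Finset.abs_sum_le_sum_abs _ _).trans (Finset.sum_le_sum fun k _ =>
          (Finset.abs_sum_le_sum_abs _ _).trans (Finset.sum_le_sum fun l _ => h1 k l))
      refine h2.trans ?_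
      rw [Finset.sum_const, Finset.sum_const, Finset.card_univ, nsmul_eq_mul, nsmul_eq_mul]
      have hcB : Fintype.card d ≤ B ^ n := hZ.card.trans hnB
      have h3 : Fintype.card d * (Fintype.card d * B ^ (2 * n ^ 2 + 3)) ≤ B ^ a := by
        calc Fintype.card d * (Fintype.card d * B ^ (2 * n ^ 2 + 3)) ≤
            B ^ n * (B ^ n * B ^ (2 * n ^ 2 + 3)) :=
              Nat.mul_le_mul hcB (Nat.mul_le_mul hcB le_rfl)
          _ = B ^ (n + (n + (2 * n ^ 2 + 3))) := by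
              rw [pow_add B n (n + (2 * n ^ 2 + 3)), pow_add B n (2 * n ^ 2 + 3)]
          _ ≤ B ^ a := hBa _ (by omega)
      exact_mod_cast h3
  · intro i j
    exact (hZ.hN i j).trans (by exact_mod_cast hB1a)
  · intro i
    refine ⟨(hZ.hδ i).1.trans hB1a, (hZ.hδ i).2.trans ?_⟩
    exact_mod_cast hB1a
  · intro i j
    have h := congrFun (congrFun e2 i) j
    rw [Matrix.one_apply] at h
    rw [← h, Matrix.mul_apply, Matrix.mul_apply, map_sum]
    refine Finset.sum_congr rfl fun k _ => ?_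
    rw [map_mul, cm_apply, Matrix.map_apply, PowerSeries.constantCoeff_C, hH0, Matrix.map_apply]

end Pool.Agent.PSV.H44G
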